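import Pool.Agent.Helper70.SK.Stmts
import Pool.Agent.Helper70.SK.Lib
import Pool.Agent.Helper61.DK.FRM

/-! Sticky Kakeya sets: module S5 (the entropy increment with a set of saturated cubes). -/

namespace Pool.Agent.Helper70.SK

open Finset Pool.Agent.Helper70.DK

theorem s5_mem_Bx {q : ℕ} (s : ℤ) (y S : Fin q → ℤ) :
    S ∈ Bx s y ↔ ∀ r, y r - s < S r ∧ S r ≤ y r := by
  unfold Bx
  simp only [Fintype.mem_piFinset, Finset.mem_Ioc]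

theorem s5_card_Bx {q : ℕ} (s : ℤ) (hs : 0 ≤ s) (y : Fin q → ℤ) :
    ((Bx s y).card : ℝ) = (s : ℝ) ^ q := by
  unfold Bx
  rw [Fintype.card_piFinset]
  have h1 : ∀ r : Fin q, (Finset.Ioc (y r - s) (y r)).card = s.toNat := by
    intro r
    rw [Int.card_Ioc]
    congr 1
    ring
  rw [Finset.prod_congr rfl fun r _ => h1 r, Finset.prod_const, Finset.card_univ, Fintype.card_fin]
  push_cast
  have h2 : ((s.toNat : ℕ) : ℝ) = (s : ℝ) := by exact_mod_cast Int.toNat_of_nonneg hs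
  rw [h2]

/-- exchange of the sums over the points and over the corners -/
theorem s5_ex {Ω τ : Type} {q : ℕ} (X : Finset Ω) (y : Ω → Fin q → ℤ) (tr : Ω → τ) (s : ℤ)
    (A : τ → (Fin q → ℤ) → Finset Ω)
    (hA : ∀ t S x, x ∈ A t S ↔ x ∈ X ∧ tr x = t ∧ S ∈ Bx s (y x))
    (H K : Ω → (Fin q → ℤ) → ℝ) (h : ∀ t S, ∑ x ∈ A t S, K x S ≤ ∑ x ∈ A t S, H x S) :
    ∑ x ∈ X, ∑ S ∈ Bx s (y x), K x S ≤ ∑ x ∈ X, ∑ S ∈ Bx s (y x), H x S := by
  classical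
  have key : ∀ H : Ω → (Fin q → ℤ) → ℝ, ∑ x ∈ X, ∑ S ∈ Bx s (y x), H x S =
      ∑ S ∈ X.biUnion (fun x => Bx s (y x)), ∑ t ∈ X.image tr, ∑ x ∈ A t S, H x S := by
    intro H
    rw [Finset.sum_comm' (t' := X.biUnion (fun x => Bx s (y x)))
      (s' := fun S => X.filter (fun x => S ∈ Bx s (y x)))]
    · refine Finset.sum_congr rfl fun S _ => ?_
      rw [← Finset.sum_fiberwise_of_maps_to (g := tr) (t := X.image tr)]
      · refine Finset.sum_congr rfl fun t _ => ?_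
        refine Finset.sum_congr ?_ fun _ _ => rfl
        ext x
        rw [hA]
        simp only [Finset.mem_filter]
        tauto
      · intro x hx
        exact Finset.mem_image_of_mem _ (Finset.mem_filter.1 hx).1
    · intro x S
      simp only [Finset.mem_filter, Finset.mem_biUnion]
      constructor
      · rintro ⟨h1, h2⟩
        exact ⟨⟨h1, h2⟩, x, h1, h2⟩
      · rintro ⟨⟨h1, h2⟩, _⟩
        exact ⟨h1, h2⟩
  rw [key, key]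
  exact Finset.sum_le_sum fun S _ => Finset.sum_le_sum fun t _ => h t S

/-- the entropy is at least the average entropy of the fibres -/
theorem s5_fib {Ω α β : Type} (S : Finset Ω) (f : Ω → α) (g : Ω → β) :
    ∑ x ∈ S, ent (fib S g (g x)) f ≤ S.card * ent S f := by
  classical
  rcases S.eq_empty_or_nonempty with hS | hS
  · subst hS
    simp
  have hn : (0 : ℝ) < S.card := by exact_mod_cast hS.card_pos
  have h1 := st_E3 Ω α β S f g (S.image g) (fun x hx => Finset.mem_image_of_mem g hx)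
  have h2 := cent_le_ent S f g
  have h3 : ∑ x ∈ S, ent (fib S g (g x)) f = ∑ c ∈ S.image g, ((fib S g c).card : ℝ) * ent (fib S g c) f := by
    rw [← Finset.sum_fiberwise_of_maps_to (g := g) (t := S.image g)
      (fun x hx => Finset.mem_image_of_mem g hx)]
    refine Finset.sum_congr rfl fun c _ => ?_
    have e1 : ∀ x ∈ S.filter (fun x => g x = c), ent (fib S g (g x)) f = ent (fib S g c) f := by
      intro x hx
      rw [(Finset.mem_filter.1 hx).2]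
    rw [Finset.sum_congr rfl e1, Finset.sum_const, nsmul_eq_mul]
    rfl
  rw [h3]
  rw [h1] at h2
  have h4 : ∑ c ∈ S.image g, ((fib S g c).card : ℝ) * ent (fib S g c) f =
      S.card * ∑ c ∈ S.image g, ((fib S g c).card : ℝ) / (S.card : ℝ) * ent (fib S g c) f := by
    rw [Finset.mul_sum]
    refine Finset.sum_congr rfl fun c _ => ?_
    field_simp
  rw [h4]
  exact mul_le_mul_of_nonneg_left h2 hn.le

theorem s5_mem_Zt {m q : ℕ} (σ : Sy m q) (B i : ℕ) (τ x : Fin m → ℤ) :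
    x ∈ σ.Zt B i τ ↔ x ∈ σ.X B ∧ σ.tr B i x = τ := by
  unfold Sy.Zt
  exact Finset.mem_filter

theorem s5_mem_fib {Ω β : Type} (S : Finset Ω) (g : Ω → β) (c : β) (x : Ω) :
    x ∈ fib S g c ↔ x ∈ S ∧ g x = c := by
  unfold fib
  simp only [Finset.mem_filter]

theorem s5_mem_Qb {Ω : Type} {q : ℕ} (Z : Finset Ω) (y : Ω → Fin q → ℤ) (s : ℤ) (S : Fin q → ℤ) (x : Ω) :
    x ∈ Qb Z y s S ↔ x ∈ Z ∧ ∀ r, S r ≤ y x r ∧ y x r < S r + s := by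
  unfold Qb
  exact Finset.mem_filter

open Classical in
/-- the small tubes inside the cube -/
theorem s5_core {m q : ℕ} (σ : Sy m q) (B l3 : ℕ) (Z : Finset (Fin m → ℤ)) (hZ : Z ⊆ σ.X B)
    {α : Type} (f : (Fin m → ℤ) → α) :
    ∑ x ∈ Z, (if σ.Zt B l3 (σ.tr B l3 x) ⊆ Z then ent (σ.Zt B l3 (σ.tr B l3 x)) f else 0) ≤
      Z.card * ent Z f := by
  refine le_trans (Finset.sum_le_sum fun x hx => ?_) (s5_fib Z f (σ.tr B l3))
  split_ifs with h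
  · have e1 : fib Z (σ.tr B l3) (σ.tr B l3 x) = σ.Zt B l3 (σ.tr B l3 x) := by
      ext x'
      rw [s5_mem_fib, s5_mem_Zt]
      constructor
      · rintro ⟨h1, h2⟩
        exact ⟨hZ h1, h2⟩
      · rintro ⟨h1, h2⟩
        exact ⟨h ((s5_mem_Zt σ B l3 _ _).2 ⟨h1, h2⟩), h2⟩
    rw [e1]
  · exact ent_nonneg _ _

open Classical in
/-- the inequality for one cube -/
theorem s5_cube {m q' : ℕ} (σ : Sy m (q' + 1)) (B i c l3 : ℕ) (s0 s1 : ℤ) (τ : Fin m → ℤ)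
    (S : Fin (q' + 1) → ℤ) (P : Prop) (M : Matrix (Fin q') (Fin (q' + 1)) ℝ) (a b d : ℝ) (ha : 0 ≤ a)
    (hab : a ≤ b) (hd : 0 ≤ d)
    (hP : P → ent (Qb (σ.Zt B i τ) (σ.yc B i c) s0 S) (qf M (σ.yc B i c) s1) + (b - d) ≤
      ent (Qb (σ.Zt B i τ) (σ.yc B i c) s0 S) (pf (σ.yc B i c) s1 S)) :
    ∑ x ∈ Qb (σ.Zt B i τ) (σ.yc B i c) s0 S,
      ((if σ.Zt B l3 (σ.tr B l3 x) ⊆ Qb (σ.Zt B i τ) (σ.yc B i c) s0 S then
        (if P then ent (σ.Zt B l3 (σ.tr B l3 x)) (qf M (σ.yc B i c) s1) + a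
          else ent (σ.Zt B l3 (σ.tr B l3 x)) (pf (σ.yc B i c) s1 S)) else 0) - d) ≤
    ∑ _x ∈ Qb (σ.Zt B i τ) (σ.yc B i c) s0 S,
      ent (Qb (σ.Zt B i τ) (σ.yc B i c) s0 S) (pf (σ.yc B i c) s1 S) := by
  set Z := Qb (σ.Zt B i τ) (σ.yc B i c) s0 S with hZd
  have hZ : Z ⊆ σ.X B := by
    intro x hx
    have h1 := (Finset.mem_filter.1 hx).1
    exact (Finset.mem_filter.1 h1).1
  have hn : (0 : ℝ) ≤ (Z.card : ℝ) := Nat.cast_nonneg _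
  rw [Finset.sum_sub_distrib, Finset.sum_const, Finset.sum_const, nsmul_eq_mul, nsmul_eq_mul]
  by_cases hp : P
  · simp only [hp, if_true]
    have h1 := s5_core σ B l3 Z hZ (qf M (σ.yc B i c) s1)
    have h2 : ∑ x ∈ Z, (if σ.Zt B l3 (σ.tr B l3 x) ⊆ Z then
        ent (σ.Zt B l3 (σ.tr B l3 x)) (qf M (σ.yc B i c) s1) + a else 0) ≤
        ∑ x ∈ Z, ((if σ.Zt B l3 (σ.tr B l3 x) ⊆ Z then
        ent (σ.Zt B l3 (σ.tr B l3 x)) (qf M (σ.yc B i c) s1) else 0) + a) := by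
      refine Finset.sum_le_sum fun x _ => ?_
      split_ifs
      · exact le_rfl
      · simpa using ha
    rw [Finset.sum_add_distrib, Finset.sum_const, nsmul_eq_mul] at h2
    have h3 := mul_le_mul_of_nonneg_left (hP hp) hn
    have h4 := mul_le_mul_of_nonneg_left hab hn
    nlinarith [h1, h2, h3, h4]
  · simp only [hp, if_false]
    have h1 := s5_core σ B l3 Z hZ (pf (σ.yc B i c) s1 S)
    have h2 := mul_nonneg hn hd
    linarith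

/-- geometry: the cube with corner `y0 - v` contains the small tube -/
theorem s5_geo {m q : ℕ} (h3 : ST_GEO) (B : ℕ) (R κ D C : ℝ) (σ : Sy m q) (hB : 2 ≤ B) (hR : 0 ≤ R)
    (hD : 0 ≤ D) (hok : σ.Ok B R κ D C) (i l3 c M0 : ℕ) (s0 : ℤ) (hi : i ≤ l3) (hl : l3 ≤ σ.n)
    (hc : c ∈ σ.G) (hM0 : (m : ℝ) * D * (R + 1) ≤ M0) (x : Fin m → ℤ) (hx : x ∈ σ.X B)
    (v : Fin q → ℤ)
    (hv : ∀ r, (M0 : ℤ) * (B : ℤ) ^ σ.e l3 ≤ v r ∧ v r < s0 - (M0 : ℤ) * (B : ℤ) ^ σ.e l3) :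
    σ.Zt B l3 (σ.tr B l3 x) ⊆ Qb (σ.Zt B i (σ.tr B i x)) (σ.yc B i c) s0
      (fun r => σ.yc B i c (σ.co B l3 x) r - v r) := by
  obtain ⟨g1, _, g3, g4⟩ := h3 m q B R κ D C σ hB hR hD hok
  intro x' hx'
  rw [s5_mem_Zt] at hx'
  obtain ⟨hx1, hx2⟩ := hx'
  have e1 : σ.tr B i x' = σ.tr B i x := by
    rw [g4 i l3 hi hl x', g4 i l3 hi hl x, hx2]
  have e2 : σ.tr B l3 (σ.co B l3 x) = σ.tr B l3 x := (g3 l3 hl x hx).2.1
  have e3 : σ.tr B i (σ.co B l3 x) = σ.tr B i x := by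
    rw [g4 i l3 hi hl (σ.co B l3 x), g4 i l3 hi hl x, e2]
  have e4 : σ.co B i x' = σ.co B i (σ.co B l3 x) := by
    have : (fun c => (B : ℤ) ^ (σ.n - i) * σ.tr B i x' c) =
      (fun c => (B : ℤ) ^ (σ.n - i) * σ.tr B i (σ.co B l3 x) c) := by rw [e1, e3]
    exact this
  rw [s5_mem_Qb, s5_mem_Zt]
  refine ⟨⟨hx1, e1⟩, fun r => ?_⟩
  have k1 := g1 c hc l3 hl x' hx1 (σ.co B l3 x) (g3 l3 hl x hx).1 (by rw [hx2, e2]) r
  have hpos : (0 : ℝ) ≤ (B : ℝ) ^ σ.e l3 := by positivity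
  have k2 : |(σ.Y B c x' r : ℝ) - (σ.Y B c (σ.co B l3 x) r : ℝ)| ≤ (M0 : ℝ) * (B : ℝ) ^ σ.e l3 :=
    k1.trans (mul_le_mul_of_nonneg_right hM0 hpos)
  have k3 : |σ.Y B c x' r - σ.Y B c (σ.co B l3 x) r| ≤ (M0 : ℤ) * (B : ℤ) ^ σ.e l3 := by
    exact_mod_cast k2
  have k4 := abs_le.1 k3
  have hvr := hv r
  have y1 : σ.yc B i c x' r = σ.Y B c x' r - σ.Y B c (σ.co B i (σ.co B l3 x)) r := by
    rw [← e4]
    rfl
  have y2 : σ.yc B i c (σ.co B l3 x) r =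
      σ.Y B c (σ.co B l3 x) r - σ.Y B c (σ.co B i (σ.co B l3 x)) r := rfl
  rw [y1, y2]
  constructor <;> linarith [k4.1, k4.2, hvr.1, hvr.2]

theorem s5_sum {α : Type} (U T : Finset α) (φ : α → α) (hinj : Function.Injective φ)
    (hT : ∀ v ∈ T, φ v ∈ U) (F : α → ℝ) (hF : ∀ x ∈ U, 0 ≤ F x) :
    ∑ v ∈ T, F (φ v) ≤ ∑ x ∈ U, F x := by
  classical
  rw [← Finset.sum_image (s := T) (g := φ) (f := F) (fun a _ b _ e => hinj e)]
  refine Finset.sum_le_sum_of_subset_of_nonneg ?_ fun x hx _ => hF x hx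
  intro x hx
  obtain ⟨v, hv, rfl⟩ := Finset.mem_image.1 hx
  exact hT v hv

open Classical in
theorem s5_cnt {α : Type} (U T : Finset α) (φ : α → α) (hinj : Function.Injective φ)
    (hT : ∀ v ∈ T, φ v ∈ U) (P : α → Prop) :
    ((U.filter P).card : ℝ) ≤ ((T.filter (fun v => P (φ v))).card : ℝ) + ((U.card : ℝ) - T.card) := by
  have hsub : T.image φ ⊆ U := by
    intro x hx
    obtain ⟨v, hv, rfl⟩ := Finset.mem_image.1 hx
    exact hT v hv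
  have h1 : U.filter P ⊆ (T.filter (fun v => P (φ v))).image φ ∪ (U \ T.image φ) := by
    intro x hx
    rw [Finset.mem_filter] at hx
    by_cases hxT : x ∈ T.image φ
    · obtain ⟨v, hv, rfl⟩ := Finset.mem_image.1 hxT
      exact Finset.mem_union_left _ (Finset.mem_image_of_mem _ (Finset.mem_filter.2 ⟨hv, hx.2⟩))
    · exact Finset.mem_union_right _ (Finset.mem_sdiff.2 ⟨hx.1, hxT⟩)
  have h2 := (Finset.card_le_card h1).trans (Finset.card_union_le _ _)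
  have h3 : (U \ T.image φ).card + T.card = U.card := by
    have := Finset.card_sdiff_add_card_eq_card hsub
    rwa [Finset.card_image_of_injective _ hinj] at this
  rw [Finset.card_image_of_injective _ hinj] at h2
  have h2' : ((U.filter P).card : ℝ) ≤ ((T.filter (fun v => P (φ v))).card : ℝ) + ((U \ T.image φ).card : ℝ) := by
    exact_mod_cast h2
  have h3' : ((U \ T.image φ).card : ℝ) + T.card = U.card := by exact_mod_cast h3
  linarith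

/-- the final arithmetic -/
theorem s5_arith (q e ε zz N A V Sg T Ns len r3 L c5 HH lx : ℝ) (hN : 0 < N) (hA : 0 < A)
    (hVA : V ≤ A) (hVθ : (A - V) * (8 * q) ≤ ε * A) (heq : e ≤ q)
    (hε : 0 < ε) (hzz : zz ≤ 1) (hL : 0 < L) (hr3 : 0 ≤ r3) (hlx : lx = len - r3) (hlx0 : 0 ≤ lx)
    (h1 : T - N * A * (ε / 4 * (len * L)) ≤ Sg)
    (h2 : (N * V * (e - ε / 4) + (q - e) * Ns) * (lx * L) ≤ T)
    (h3 : zz * (N * A) - N * (A - V) ≤ Ns)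
    (h4 : Sg / (N * A) - c5 ≤ HH)
    (h5 : (q * r3 * L + c5) * 8 ≤ 3 * ε * L * len) :
    (e + (q - e) * zz - ε) * (len * L) ≤ HH := by
  have hNA : 0 < N * A := mul_pos hN hA
  -- lower bound of T
  have k1 : (e + (q - e) * zz - 3 * ε / 8) * (N * A) ≤ N * V * (e - ε / 4) + (q - e) * Ns := by
    have a1 := mul_le_mul_of_nonneg_left h3 (sub_nonneg.2 heq)
    have a2 : N * (A - V) * (8 * q) ≤ ε * (N * A) := by nlinarith
    have a3 : 0 ≤ N * (A - V) * (ε / 4) := by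
      have : 0 ≤ A - V := sub_nonneg.2 hVA
      positivity
    nlinarith
  have k2 : (e + (q - e) * zz - 3 * ε / 8) * (N * A) * (lx * L) ≤ T :=
    (mul_le_mul_of_nonneg_right k1 (mul_nonneg hlx0 hL.le)).trans h2
  have k3 : e + (q - e) * zz - 3 * ε / 8 ≤ q := by nlinarith [sub_nonneg.2 heq]
  have k4 : (e + (q - e) * zz - 3 * ε / 8) * (lx * L) ≥
      (e + (q - e) * zz - 3 * ε / 8) * (len * L) - q * (r3 * L) := by
    have : (e + (q - e) * zz - 3 * ε / 8) * (r3 * L) ≤ q * (r3 * L) :=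
      mul_le_mul_of_nonneg_right k3 (mul_nonneg hr3 hL.le)
    rw [hlx]
    nlinarith
  have k5 : ((e + (q - e) * zz - 3 * ε / 8) * (len * L) - q * (r3 * L) - ε / 4 * (len * L)) * (N * A) ≤ Sg := by
    have := mul_le_mul_of_nonneg_right k4 hNA.le
    nlinarith
  have k6 : (e + (q - e) * zz - 3 * ε / 8) * (len * L) - q * (r3 * L) - ε / 4 * (len * L) ≤ Sg / (N * A) := by
    rw [le_div_iff₀ hNA]
    exact k5
  nlinarith

theorem st_S5 (h1 : ST_S5U) (h2 : ST_S5P) (h3 : ST_GEO) (_h4 : ST_ZO) : ST_S5 := by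
  classical
  intro m q' B R κ D C e ε hEQ hLow hB hR hκ hD hC he heq hε
  obtain ⟨c5, hc5, H5⟩ := h1 m (q' + 1) B R κ D hB hR hD
  obtain ⟨LP, HP⟩ := h2 m q' B R κ D C e (ε / 4) hEQ hLow hB hR hκ hD hC he heq (by positivity)
  have hBr : (2 : ℝ) ≤ B := by exact_mod_cast hB
  have hB0 : (0 : ℝ) < B := by linarith
  have hBz : (0 : ℤ) < (B : ℤ) := by exact_mod_cast (by omega : 0 < B)
  have hL : 0 < Real.log B := Real.log_pos (by linarith)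
  obtain ⟨L, hLdef⟩ : ∃ L : ℝ, L = Real.log B := ⟨_, rfl⟩
  rw [← hLdef] at hL
  obtain ⟨M0, hM0⟩ : ∃ M0 : ℕ, (m : ℝ) * D * (R + 1) ≤ M0 := ⟨_, Nat.le_ceil _⟩
  have hq0 : (0 : ℝ) ≤ (q' : ℝ) + 1 := by positivity
  obtain ⟨r3, hr3⟩ := pow_unbounded_of_one_lt (2 * M0 + 16 * ((q' : ℝ) + 1) ^ 2 * M0 / ε)
    (one_lt_two : (1 : ℝ) < 2)
  have hr3B : (2 : ℝ) ^ r3 ≤ (B : ℝ) ^ r3 := pow_le_pow_left₀ (by norm_num) hBr r3
  obtain ⟨L2, hL2⟩ := exists_nat_ge ((((q' : ℝ) + 1) * r3 * L + c5) * 8 / (3 * ε * L))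
  refine ⟨LP + r3 + (⌈c5⌉₊ + L2), ?_⟩
  intro σ Q i l0 l1 rep hok hrep hi hl hln hQn hQ P hP
  have hl3 : l0 + r3 ≤ l1 := by omega
  have hl3n : l0 + r3 ≤ σ.n := by omega
  have hil3 : i ≤ l0 + r3 := by omega
  obtain ⟨M00, hM00⟩ := Pool.Agent.Helper70.DK.st_FRM.1 q' (q' + 1) (Nat.le_succ _)
  have hex : ∀ (τ : Fin m → ℤ) (c : ℕ) (S : Fin (q' + 1) → ℤ), ∃ M : Matrix (Fin q') (Fin (q' + 1)) ℝ,
      Frame M ∧ (P τ c S → ent (Qb (σ.Zt B i τ) (σ.yc B i c) ((B : ℤ) ^ σ.e l0) S)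
        (qf M (σ.yc B i c) ((B : ℤ) ^ σ.e l1)) +
        (1 - ε / 4) * (((l1 : ℝ) - l0) * Real.log B) ≤
      ent (Qb (σ.Zt B i τ) (σ.yc B i c) ((B : ℤ) ^ σ.e l0) S) (pf (σ.yc B i c) ((B : ℤ) ^ σ.e l1) S)) := by
    intro τ c S
    by_cases hp : P τ c S
    · obtain ⟨M, hM, hM2⟩ := hP τ c S hp
      exact ⟨M, hM, fun _ => hM2⟩
    · exact ⟨M00, hM00, fun h => absurd h hp⟩
  choose Mf hMf hMf2 using hex
  rw [← hLdef] at hMf2 ⊢
  obtain ⟨s0, hs0⟩ : ∃ s : ℤ, s = (B : ℤ) ^ σ.e l0 := ⟨_, rfl⟩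
  obtain ⟨s1, hs1⟩ : ∃ s : ℤ, s = (B : ℤ) ^ σ.e l1 := ⟨_, rfl⟩
  have hs0pos : 0 < s0 := by rw [hs0]; positivity
  have hs0R : (s0 : ℝ) = (B : ℝ) ^ σ.e l0 := by rw [hs0]; push_cast; rfl
  have he03 : σ.e l0 = σ.e (l0 + r3) + r3 := by
    unfold Sy.e
    have := hok.n1
    omega
  obtain ⟨w3, hw3⟩ : ∃ w : ℤ, w = (M0 : ℤ) * (B : ℤ) ^ σ.e (l0 + r3) := ⟨_, rfl⟩
  have hw3R : (w3 : ℝ) = (M0 : ℝ) * (B : ℝ) ^ σ.e (l0 + r3) := by rw [hw3]; push_cast; rfl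
  have hw30 : 0 ≤ w3 := by rw [hw3]; positivity
  have hs0w : (s0 : ℝ) * M0 = w3 * (B : ℝ) ^ r3 := by
    rw [hs0R, hw3R, he03, pow_add]; ring
  have hr3pos : (0 : ℝ) < (B : ℝ) ^ r3 := by positivity
  have hs0pR : (0 : ℝ) < s0 := by exact_mod_cast hs0pos
  have hx16 : 0 ≤ 16 * ((q' : ℝ) + 1) ^ 2 * M0 / ε := by positivity
  have h2w : 2 * (w3 : ℝ) ≤ s0 := by
    have a1 : 2 * (M0 : ℝ) ≤ (B : ℝ) ^ r3 := by linarith
    have a2 : 2 * (w3 : ℝ) * (B : ℝ) ^ r3 ≤ s0 * (B : ℝ) ^ r3 := by nlinarith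
    exact le_of_mul_le_mul_right a2 hr3pos
  obtain ⟨Vin, hVin⟩ : ∃ V : Finset (Fin (q' + 1) → ℤ), V = Fintype.piFinset (fun _ => Finset.Ico w3 (s0 - w3)) :=
    ⟨_, rfl⟩
  have hVcard : (Vin.card : ℝ) = ((s0 : ℝ) - 2 * w3) ^ (q' + 1) := by
    rw [hVin, Fintype.card_piFinset, Finset.prod_const, Finset.card_univ, Fintype.card_fin, Int.card_Ico]
    push_cast
    congr 1
    have a0 : 2 * w3 ≤ s0 := by exact_mod_cast h2w
    have a1 : ((s0 - w3 - w3).toNat : ℤ) = s0 - w3 - w3 := Int.toNat_of_nonneg (by linarith)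
    have a2 : (((s0 - w3 - w3).toNat : ℤ) : ℝ) = ((s0 - w3 - w3 : ℤ) : ℝ) := by rw [a1]
    rw [Int.cast_natCast] at a2
    rw [a2]
    push_cast
    ring
  have hmemV : ∀ v ∈ Vin, ∀ r, (M0 : ℤ) * (B : ℤ) ^ σ.e (l0 + r3) ≤ v r ∧
      v r < s0 - (M0 : ℤ) * (B : ℤ) ^ σ.e (l0 + r3) := by
    intro v hv r
    rw [hVin, Fintype.mem_piFinset] at hv
    rw [← hw3]
    exact Finset.mem_Ico.1 (hv r)
  -- the shift maps
  have hinj : ∀ y0 : Fin (q' + 1) → ℤ, Function.Injective (fun (v : Fin (q' + 1) → ℤ) r => y0 r - v r) := by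
    intro y0 v v' h
    funext r
    have := congrFun h r
    simp only at this
    linarith
  have hgeo : ∀ γ ∈ σ.G, ∀ x ∈ σ.X B, ∀ v ∈ Vin,
      σ.Zt B (l0 + r3) (σ.tr B (l0 + r3) x) ⊆ Qb (σ.Zt B i (σ.tr B i x)) (σ.yc B i (rep γ)) s0
        (fun r => σ.yc B i (rep γ) (σ.co B (l0 + r3) x) r - v r) := by
    intro γ hγ x hx v hv
    exact s5_geo h3 B R κ D C σ hB hR hD hok i (l0 + r3) (rep γ) M0 s0 hil3 hl3n (hrep γ hγ).1 hM0 x hx v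
      (hmemV v hv)
  have hbx : ∀ γ ∈ σ.G, ∀ x ∈ σ.X B, ∀ v ∈ Vin,
      (fun r => σ.yc B i (rep γ) (σ.co B (l0 + r3) x) r - v r) ∈ Bx s0 (σ.yc B i (rep γ) x) := by
    intro γ hγ x hx v hv
    have a1 := hgeo γ hγ x hx v hv ((s5_mem_Zt σ B (l0 + r3) _ x).2 ⟨hx, rfl⟩)
    rw [s5_mem_Qb] at a1
    rw [s5_mem_Bx]
    intro r
    have a2 := a1.2 r
    constructor
    · linarith [a2.2]
    · exact a2.1
  obtain ⟨Ψ, hΨ⟩ : ∃ Ψ : ℕ → (Fin m → ℤ) → (Fin (q' + 1) → ℤ) → ℝ, Ψ = fun γ x S =>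
      if P (σ.tr B i x) (rep γ) S then
        ent (σ.Zt B (l0 + r3) (σ.tr B (l0 + r3) x)) (qf (Mf (σ.tr B i x) (rep γ) S) (σ.yc B i (rep γ)) s1) +
          ((l1 : ℝ) - ((l0 + r3 : ℕ) : ℝ)) * L
      else ent (σ.Zt B (l0 + r3) (σ.tr B (l0 + r3) x)) (pf (σ.yc B i (rep γ)) s1 S) := ⟨_, rfl⟩
  have hl3R : ((l0 + r3 : ℕ) : ℝ) ≤ (l1 : ℝ) := by exact_mod_cast hl3
  have hl0R : ((l0 : ℕ) : ℝ) ≤ (l1 : ℝ) := by exact_mod_cast (by omega : l0 ≤ l1)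
  have hlx0 : 0 ≤ (l1 : ℝ) - ((l0 + r3 : ℕ) : ℝ) := by linarith
  have hlen0 : 0 ≤ (l1 : ℝ) - (l0 : ℝ) := by linarith
  have hlxL : 0 ≤ ((l1 : ℝ) - ((l0 + r3 : ℕ) : ℝ)) * L := mul_nonneg hlx0 hL.le
  have hΨ0 : ∀ γ x S, 0 ≤ Ψ γ x S := by
    intro γ x S
    rw [hΨ]
    simp only
    split_ifs
    · exact add_nonneg (ent_nonneg _ _) hlxL
    · exact ent_nonneg _ _
  have hA : ∀ γ, ∑ x ∈ σ.X B, ∑ S ∈ Bx s0 (σ.yc B i (rep γ) x),
      ((if σ.Zt B (l0 + r3) (σ.tr B (l0 + r3) x) ⊆ Qb (σ.Zt B i (σ.tr B i x)) (σ.yc B i (rep γ)) s0 S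
        then Ψ γ x S else 0) - ε / 4 * (((l1 : ℝ) - l0) * L)) ≤
      ∑ x ∈ σ.X B, ∑ S ∈ Bx s0 (σ.yc B i (rep γ) x),
        ent (Qb (σ.Zt B i (σ.tr B i x)) (σ.yc B i (rep γ)) s0 S) (pf (σ.yc B i (rep γ)) s1 S) := by
    intro γ
    refine s5_ex (σ.X B) (σ.yc B i (rep γ)) (σ.tr B i) s0
      (fun t S => Qb (σ.Zt B i t) (σ.yc B i (rep γ)) s0 S) ?_ _ _ ?_
    · intro t S x
      rw [s5_mem_Qb, s5_mem_Zt, s5_mem_Bx]
      constructor
      · rintro ⟨⟨a1, a2⟩, a3⟩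
        exact ⟨a1, a2, fun r => ⟨by linarith [(a3 r).2], (a3 r).1⟩⟩
      · rintro ⟨a1, a2, a3⟩
        exact ⟨⟨a1, a2⟩, fun r => ⟨(a3 r).2, by linarith [(a3 r).1]⟩⟩
    · intro t S
      have b := s5_cube σ B i (rep γ) (l0 + r3) s0 s1 t S (P t (rep γ) S) (Mf t (rep γ) S)
        (((l1 : ℝ) - ((l0 + r3 : ℕ) : ℝ)) * L) (((l1 : ℝ) - l0) * L) (ε / 4 * (((l1 : ℝ) - l0) * L))
        hlxL (by
          refine mul_le_mul_of_nonneg_right ?_ hL.le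
          push_cast
          linarith [(Nat.cast_nonneg r3 : (0 : ℝ) ≤ (r3 : ℝ))])
        (mul_nonneg (by positivity) (mul_nonneg hlen0 hL.le)) (by
          intro hp
          have b1 := hMf2 t (rep γ) S hp
          rw [← hs0, ← hs1] at b1
          have b2 : ((l1 : ℝ) - l0) * L - ε / 4 * (((l1 : ℝ) - l0) * L) =
            (1 - ε / 4) * (((l1 : ℝ) - l0) * L) := by ring
          rw [b2]
          exact b1)
      have htr : ∀ x ∈ Qb (σ.Zt B i t) (σ.yc B i (rep γ)) s0 S, σ.tr B i x = t := by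
        intro x hx
        rw [s5_mem_Qb, s5_mem_Zt] at hx
        exact hx.1.2
      refine le_trans (le_of_eq ?_) (b.trans (le_of_eq ?_))
      · refine Finset.sum_congr rfl fun x hx => ?_
        rw [hΨ]
        simp only [htr x hx]
      · refine Finset.sum_congr rfl fun x hx => ?_
        rw [htr x hx]
  have hB2 : ∀ γ ∈ σ.G, ∀ x ∈ σ.X B,
      ∑ v ∈ Vin, Ψ γ x (fun r => σ.yc B i (rep γ) (σ.co B (l0 + r3) x) r - v r) ≤
      ∑ S ∈ Bx s0 (σ.yc B i (rep γ) x),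
        (if σ.Zt B (l0 + r3) (σ.tr B (l0 + r3) x) ⊆ Qb (σ.Zt B i (σ.tr B i x)) (σ.yc B i (rep γ)) s0 S
        then Ψ γ x S else 0) := by
    intro γ hγ x hx
    have b := s5_sum (Bx s0 (σ.yc B i (rep γ) x)) Vin
      (fun v r => σ.yc B i (rep γ) (σ.co B (l0 + r3) x) r - v r) (hinj _) (hbx γ hγ x hx)
      (fun S => if σ.Zt B (l0 + r3) (σ.tr B (l0 + r3) x) ⊆
        Qb (σ.Zt B i (σ.tr B i x)) (σ.yc B i (rep γ)) s0 S then Ψ γ x S else 0) (by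
        intro S _
        split_ifs
        · exact hΨ0 _ _ _
        · exact le_rfl)
    refine le_trans (le_of_eq ?_) b
    refine Finset.sum_congr rfl fun v hv => ?_
    rw [if_pos (hgeo γ hγ x hx v hv)]
  -- cardinalities
  have hBxc : ∀ y : Fin (q' + 1) → ℤ, ((Bx s0 y).card : ℝ) = (s0 : ℝ) ^ (q' + 1) :=
    fun y => s5_card_Bx s0 hs0pos.le y
  have hXne : (σ.X B).Nonempty := by
    refine ⟨fun _ => 0, ?_⟩
    unfold Sy.X gr
    rw [Fintype.mem_piFinset]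
    intro r
    rw [Finset.mem_Ico]
    refine ⟨le_rfl, ?_⟩
    push_cast
    positivity
  have hGc : (0 : ℝ) < σ.G.card := by exact_mod_cast hok.ne.card_pos
  have hXc : (0 : ℝ) < (σ.X B).card := by exact_mod_cast hXne.card_pos
  have hGXc : ((σ.GX B).card : ℝ) = σ.G.card * (σ.X B).card := by
    unfold Sy.GX
    rw [Finset.card_product]
    push_cast
    rfl
  have hA1 : ∀ γ ∈ σ.G, ∑ x ∈ σ.X B, ∑ v ∈ Vin,
      Ψ γ x (fun r => σ.yc B i (rep γ) (σ.co B (l0 + r3) x) r - v r) -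
        (σ.X B).card * ((s0 : ℝ) ^ (q' + 1) * (ε / 4 * (((l1 : ℝ) - l0) * L))) ≤
      ∑ x ∈ σ.X B, ∑ S ∈ Bx s0 (σ.yc B i (rep γ) x),
        ent (Qb (σ.Zt B i (σ.tr B i x)) (σ.yc B i (rep γ)) s0 S) (pf (σ.yc B i (rep γ)) s1 S) := by
    intro γ hγ
    refine le_trans ?_ (hA γ)
    have c1 : ∀ x ∈ σ.X B, (∑ v ∈ Vin,
      Ψ γ x (fun r => σ.yc B i (rep γ) (σ.co B (l0 + r3) x) r - v r)) -
        (s0 : ℝ) ^ (q' + 1) * (ε / 4 * (((l1 : ℝ) - l0) * L)) ≤ ∑ S ∈ Bx s0 (σ.yc B i (rep γ) x),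
      ((if σ.Zt B (l0 + r3) (σ.tr B (l0 + r3) x) ⊆ Qb (σ.Zt B i (σ.tr B i x)) (σ.yc B i (rep γ)) s0 S
        then Ψ γ x S else 0) - ε / 4 * (((l1 : ℝ) - l0) * L)) := by
      intro x hx
      rw [Finset.sum_sub_distrib, Finset.sum_const, nsmul_eq_mul, hBxc]
      have := hB2 γ hγ x hx
      linarith
    have c2 := Finset.sum_le_sum c1
    rw [Finset.sum_sub_distrib, Finset.sum_const, nsmul_eq_mul] at c2
    exact c2
  have hT1 : ∑ γ ∈ σ.G, ∑ x ∈ σ.X B, ∑ v ∈ Vin,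
      Ψ γ x (fun r => σ.yc B i (rep γ) (σ.co B (l0 + r3) x) r - v r) -
        (σ.GX B).card * (s0 : ℝ) ^ (q' + 1) * (ε / 4 * (((l1 : ℝ) - l0) * L)) ≤
      ∑ z ∈ σ.GX B, ∑ S ∈ Bx s0 (σ.yc B i (rep z.1) z.2),
        ent (Qb (σ.Zt B i (σ.tr B i z.2)) (σ.yc B i (rep z.1)) s0 S) (pf (σ.yc B i (rep z.1)) s1 S) := by
    have c2 := Finset.sum_le_sum hA1
    rw [Finset.sum_sub_distrib, Finset.sum_const, nsmul_eq_mul] at c2
    unfold Sy.GX at hGXc ⊢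
    rw [Finset.sum_product]
    refine le_trans (le_of_eq ?_) c2
    rw [hGXc]
    ring
  -- swap and S5P
  have hswap : ∑ γ ∈ σ.G, ∑ x ∈ σ.X B, ∑ v ∈ Vin,
      Ψ γ x (fun r => σ.yc B i (rep γ) (σ.co B (l0 + r3) x) r - v r) =
      ∑ x ∈ σ.X B, ∑ v ∈ Vin, ∑ γ ∈ σ.G,
        Ψ γ x (fun r => σ.yc B i (rep γ) (σ.co B (l0 + r3) x) r - v r) := by
    rw [Finset.sum_comm]
    refine Finset.sum_congr rfl fun x _ => ?_
    rw [Finset.sum_comm]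
  have hP5 : ∀ x ∈ σ.X B, ∀ v ∈ Vin,
      (e * σ.G.card + (q' + 1 - e) * ((σ.G.filter (fun γ => P (σ.tr B i x) (rep γ)
        (fun r => σ.yc B i (rep γ) (σ.co B (l0 + r3) x) r - v r))).card : ℝ) - ε / 4 * σ.G.card) *
        (((l1 : ℝ) - ((l0 + r3 : ℕ) : ℝ)) * L) ≤
      ∑ γ ∈ σ.G, Ψ γ x (fun r => σ.yc B i (rep γ) (σ.co B (l0 + r3) x) r - v r) := by
    intro x hx v hv
    have b := HP σ Q i (l0 + r3) l1 rep hok hrep hil3 (by omega) hln hQn (by omega) x hx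
      (fun γ => P (σ.tr B i x) (rep γ) (fun r => σ.yc B i (rep γ) (σ.co B (l0 + r3) x) r - v r))
      (fun γ => Mf (σ.tr B i x) (rep γ) (fun r => σ.yc B i (rep γ) (σ.co B (l0 + r3) x) r - v r))
      (fun γ r => σ.yc B i (rep γ) (σ.co B (l0 + r3) x) r - v r) (fun γ => hMf _ _ _)
    rw [← hLdef, ← hs1] at b
    rw [hΨ]
    exact b
  obtain ⟨Ns, hNs⟩ : ∃ Ns : ℝ, Ns = ∑ x ∈ σ.X B, ∑ v ∈ Vin, ((σ.G.filter (fun γ => P (σ.tr B i x) (rep γ)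
        (fun r => σ.yc B i (rep γ) (σ.co B (l0 + r3) x) r - v r))).card : ℝ) := ⟨_, rfl⟩
  have hT2 : ((σ.GX B).card * Vin.card * (e - ε / 4) + ((q' : ℝ) + 1 - e) * Ns) *
      (((l1 : ℝ) - ((l0 + r3 : ℕ) : ℝ)) * L) ≤
      ∑ γ ∈ σ.G, ∑ x ∈ σ.X B, ∑ v ∈ Vin,
        Ψ γ x (fun r => σ.yc B i (rep γ) (σ.co B (l0 + r3) x) r - v r) := by
    rw [hswap]
    refine le_trans (le_of_eq ?_) (Finset.sum_le_sum fun x hx => Finset.sum_le_sum fun v hv => hP5 x hx v hv)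
    simp only [← Finset.sum_mul, Finset.sum_sub_distrib, Finset.sum_add_distrib, ← Finset.mul_sum,
      Finset.sum_const, nsmul_eq_mul]
    rw [hNs, hGXc]
    ring
  have hcs : ∀ x : Fin m → ℤ, ∀ γ, ((Vin.filter (fun v => P (σ.tr B i x) (rep γ)
      (fun r => σ.yc B i (rep γ) (σ.co B (l0 + r3) x) r - v r))).card : ℝ) =
      ∑ v ∈ Vin, if P (σ.tr B i x) (rep γ)
        (fun r => σ.yc B i (rep γ) (σ.co B (l0 + r3) x) r - v r) then (1 : ℝ) else 0 := by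
    intro x γ
    rw [Finset.sum_boole]
  have hNs2 : Ns = ∑ γ ∈ σ.G, ∑ x ∈ σ.X B, ((Vin.filter (fun v => P (σ.tr B i x) (rep γ)
      (fun r => σ.yc B i (rep γ) (σ.co B (l0 + r3) x) r - v r))).card : ℝ) := by
    rw [hNs, Finset.sum_comm (s := σ.G) (t := σ.X B)]
    refine Finset.sum_congr rfl fun x _ => ?_
    have e1 : ∀ v ∈ Vin, ((σ.G.filter (fun γ => P (σ.tr B i x) (rep γ)
        (fun r => σ.yc B i (rep γ) (σ.co B (l0 + r3) x) r - v r))).card : ℝ) =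
        ∑ γ ∈ σ.G, if P (σ.tr B i x) (rep γ)
        (fun r => σ.yc B i (rep γ) (σ.co B (l0 + r3) x) r - v r) then (1 : ℝ) else 0 := by
      intro v _
      rw [Finset.sum_boole]
    rw [Finset.sum_congr rfl e1, Finset.sum_comm]
    exact Finset.sum_congr rfl fun γ _ => (hcs x γ).symm
  have hNApos : (0 : ℝ) < (σ.GX B).card * (s0 : ℝ) ^ (q' + 1) := by
    rw [hGXc]
    positivity
  have hzz : σ.zz B i l0 rep P * ((σ.GX B).card * (s0 : ℝ) ^ (q' + 1)) =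
      ∑ z ∈ σ.GX B, (((Bx s0 (σ.yc B i (rep z.1) z.2)).filter
        (fun S => P (σ.tr B i z.2) (rep z.1) S)).card : ℝ) := by
    unfold Sy.zz
    rw [← hs0, ← hs0R]
    exact div_mul_cancel₀ _ hNApos.ne'
  have hzz1 : σ.zz B i l0 rep P ≤ 1 := by
    have a1 : ∑ z ∈ σ.GX B, (((Bx s0 (σ.yc B i (rep z.1) z.2)).filter
        (fun S => P (σ.tr B i z.2) (rep z.1) S)).card : ℝ) ≤ ∑ _z ∈ σ.GX B, (s0 : ℝ) ^ (q' + 1) := by
      refine Finset.sum_le_sum fun z _ => ?_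
      rw [← hBxc (σ.yc B i (rep z.1) z.2)]
      exact_mod_cast Finset.card_filter_le _ _
    rw [Finset.sum_const, nsmul_eq_mul, ← hzz] at a1
    nlinarith
  have hNs3 : σ.zz B i l0 rep P * ((σ.GX B).card * (s0 : ℝ) ^ (q' + 1)) -
      (σ.GX B).card * ((s0 : ℝ) ^ (q' + 1) - Vin.card) ≤ Ns := by
    rw [hzz]
    have a1 : ∑ z ∈ σ.GX B, (((Bx s0 (σ.yc B i (rep z.1) z.2)).filter
        (fun S => P (σ.tr B i z.2) (rep z.1) S)).card : ℝ) ≤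
        ∑ z ∈ σ.GX B, (((Vin.filter (fun v => P (σ.tr B i z.2) (rep z.1)
      (fun r => σ.yc B i (rep z.1) (σ.co B (l0 + r3) z.2) r - v r))).card : ℝ) +
        ((s0 : ℝ) ^ (q' + 1) - Vin.card)) := by
      refine Finset.sum_le_sum fun z hz => ?_
      have hz1 : z.1 ∈ σ.G ∧ z.2 ∈ σ.X B := by
        unfold Sy.GX at hz
        exact Finset.mem_product.1 hz
      rw [← hBxc (σ.yc B i (rep z.1) z.2)]
      exact s5_cnt _ Vin (fun v r => σ.yc B i (rep z.1) (σ.co B (l0 + r3) z.2) r - v r) (hinj _)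
        (hbx z.1 hz1.1 z.2 hz1.2) (fun S => P (σ.tr B i z.2) (rep z.1) S)
    rw [Finset.sum_add_distrib, Finset.sum_const, nsmul_eq_mul] at a1
    have a2 : ∑ z ∈ σ.GX B, ((Vin.filter (fun v => P (σ.tr B i z.2) (rep z.1)
      (fun r => σ.yc B i (rep z.1) (σ.co B (l0 + r3) z.2) r - v r))).card : ℝ) = Ns := by
      rw [hNs2]
      unfold Sy.GX
      rw [Finset.sum_product]
    rw [a2] at a1
    linarith
  -- the volume of the inner box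
  have hAp : (0 : ℝ) < (s0 : ℝ) ^ (q' + 1) := by positivity
  have hw3R0 : (0 : ℝ) ≤ w3 := by exact_mod_cast hw30
  have hVA : (Vin.card : ℝ) ≤ (s0 : ℝ) ^ (q' + 1) := by
    rw [hVcard]
    exact pow_le_pow_left₀ (by linarith) (by linarith) _
  have hVθ : ((s0 : ℝ) ^ (q' + 1) - Vin.card) * (8 * ((q' : ℝ) + 1)) ≤ ε * (s0 : ℝ) ^ (q' + 1) := by
    have b1 : (s0 : ℝ) - 2 * w3 = s0 * (1 + -(2 * w3 / s0)) := by
      field_simp
      ring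
    have b2 : -2 ≤ -(2 * (w3 : ℝ) / s0) := by
      have : 2 * (w3 : ℝ) / s0 ≤ 1 := by
        rw [div_le_one hs0pR]
        exact h2w
      linarith
    have b3 := one_add_mul_le_pow b2 (q' + 1)
    have b4 : (s0 : ℝ) ^ (q' + 1) * (1 + ((q' + 1 : ℕ) : ℝ) * -(2 * w3 / s0)) ≤ Vin.card := by
      rw [hVcard, b1, mul_pow]
      exact mul_le_mul_of_nonneg_left b3 hAp.le
    have b5 : (w3 : ℝ) / s0 = M0 / (B : ℝ) ^ r3 := by
      rw [div_eq_div_iff hs0pR.ne' hr3pos.ne']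
      linarith
    have b6 : (16 * ((q' : ℝ) + 1) ^ 2 * M0) / (B : ℝ) ^ r3 ≤ ε := by
      rw [div_le_iff₀ hr3pos]
      have c1 : 16 * ((q' : ℝ) + 1) ^ 2 * M0 / ε ≤ (B : ℝ) ^ r3 := by
        have : (0 : ℝ) ≤ 2 * M0 := by positivity
        linarith
      rw [div_le_iff₀ hε] at c1
      linarith
    have b7 : ((q' : ℝ) + 1) * (2 * w3 / s0) * (8 * ((q' : ℝ) + 1)) =
        (16 * ((q' : ℝ) + 1) ^ 2 * M0) / (B : ℝ) ^ r3 := by
      have : 2 * (w3 : ℝ) / s0 = 2 * (M0 / (B : ℝ) ^ r3) := by rw [← b5]; ring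
      rw [this]
      ring
    push_cast at b4
    have b8 : ((s0 : ℝ) ^ (q' + 1) - Vin.card) ≤ (s0 : ℝ) ^ (q' + 1) * (((q' : ℝ) + 1) * (2 * w3 / s0)) := by
      nlinarith [b4]
    have b9 := mul_le_mul_of_nonneg_right b8 (by positivity : (0 : ℝ) ≤ 8 * ((q' : ℝ) + 1))
    have b10 : (s0 : ℝ) ^ (q' + 1) * (((q' : ℝ) + 1) * (2 * w3 / s0)) * (8 * ((q' : ℝ) + 1)) ≤
        (s0 : ℝ) ^ (q' + 1) * ε := by
      rw [mul_assoc, b7]
      exact mul_le_mul_of_nonneg_left b6 hAp.le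
    linarith
  have hc5' : c5 ≤ (⌈c5⌉₊ : ℝ) := Nat.le_ceil _
  have hcQ : (l1 : ℝ) - i + c5 ≤ Q := by
    have a1 : ((l1 + ⌈c5⌉₊ : ℕ) : ℝ) ≤ ((i + Q : ℕ) : ℝ) := by exact_mod_cast (by omega)
    push_cast at a1
    linarith
  have hU := H5 σ C Q i l0 l1 rep hok hrep hi (by omega) hln hQn hcQ
  rw [← hs0, ← hs1, ← hs0R] at hU
  have hlen2 : (((q' : ℝ) + 1) * r3 * L + c5) * 8 ≤ 3 * ε * L * ((l1 : ℝ) - l0) := by
    have a1 : ((l0 + L2 : ℕ) : ℝ) ≤ ((l1 : ℕ) : ℝ) := by exact_mod_cast (by omega)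
    push_cast at a1
    have a2 : (((q' : ℝ) + 1) * r3 * L + c5) * 8 / (3 * ε * L) ≤ (l1 : ℝ) - l0 := by linarith
    rw [div_le_iff₀ (by positivity)] at a2
    linarith
  exact s5_arith ((q' : ℝ) + 1) e ε (σ.zz B i l0 rep P) ((σ.GX B).card) ((s0 : ℝ) ^ (q' + 1)) (Vin.card)
    _ _ Ns ((l1 : ℝ) - l0) r3 L c5 (σ.hh B i l1 - σ.hh B i l0) ((l1 : ℝ) - ((l0 + r3 : ℕ) : ℝ))
    (by rw [hGXc]; positivity) hAp hVA hVθ heq hε hzz1 hL (Nat.cast_nonneg _) (by push_cast; ring) hlx0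
    hT1 hT2 hNs3 hU hlen2

end Pool.Agent.Helper70.SK
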